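import Pool.Agent.Helper8.UN.Stmts

set_option autoImplicit false

open Finset

namespace Pool.Agent.Helper8.UN

theorem st_CHN (h1 : ST_RAT) : ST_CHN := by
  intro n D k E W B θ hT hBD hD
  induction B using Finset.induction_on generalizing W with
  | empty =>
    intro _ _ _ _
    simp
  | insert v B hv ih =>
    intro hB hθ hθ1 hyp
    have hvW : v ∈ W := hB (Finset.mem_insert_self v B)
    have hset : (W.erase v) \ B = W \ insert v B := by
      ext x
      simp only [Finset.mem_sdiff, Finset.mem_erase, Finset.mem_insert]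
      tauto
    have hBsub : B ⊆ W.erase v := by
      intro x hx
      refine Finset.mem_erase.2 ⟨?_, hB (Finset.mem_insert_of_mem hx)⟩
      rintro rfl
      exact hv hx
    have IH := ih (W.erase v) hBsub hθ hθ1 (by
      intro W' u hW' hs hu
      refine hyp W' u (hW'.trans (Finset.erase_subset _ _)) ?_ hu
      rw [← hset]
      exact hs)
    rw [hset] at IH
    obtain ⟨r1, r2, r3, r4⟩ := h1 n D k E W v hT hBD hD hvW
    have r5 := hyp W v (Finset.Subset.refl _) (by
      intro x hx
      rw [Finset.mem_sdiff, Finset.mem_insert, not_or] at hx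
      exact Finset.mem_erase.2 ⟨hx.2.1, hx.1⟩) hvW
    have hk : (D : ℝ) < k := by exact_mod_cast hD
    have hkh : 0 ≤ (1 - θ) * (k - hh E W k v) := by
      apply mul_nonneg
      · linarith
      · linarith
    rw [Finset.card_insert_of_notMem hv]
    have hA : (0 : ℝ) ≤ AA E (W.erase v) k := Nat.cast_nonneg _
    have hP : (0 : ℝ) ≤ PP E (W \ insert v B) k := Nat.cast_nonneg _
    calc (AA E (W \ insert v B) k : ℝ) * (PP E W k * (1 - θ) ^ (B.card + 1))
        = ((1 - θ) * (k - hh E W k v)) *
          (AA E (W \ insert v B) k * (PP E (W.erase v) k * (1 - θ) ^ B.card)) := by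
          rw [r1, pow_succ]
          ring
      _ ≤ ((1 - θ) * (k - hh E W k v)) * (AA E (W.erase v) k * PP E (W \ insert v B) k) :=
          mul_le_mul_of_nonneg_left IH hkh
      _ = ((1 - θ) * (k - hh E W k v)) * AA E (W.erase v) k * PP E (W \ insert v B) k := by ring
      _ ≤ (k - hs E W k v) * AA E (W.erase v) k * PP E (W \ insert v B) k := by gcongr
      _ ≤ AA E W k * PP E (W \ insert v B) k := by gcongr

end Pool.Agent.Helper8.UN
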