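import Pool.Agent.Helper8.UN.Stmts

set_option autoImplicit false

open Finset

namespace Pool.Agent.Helper8.UN

theorem h1_outside {n k : ℕ} {E : Finset (Finset (Fin n))} {W : Finset (Fin n)}
    {f : Fin n → ℕ} (hf : f ∈ CC E W k) {y : Fin n} (hy : y ∉ W) : f y = 0 := by
  classical
  unfold CC at hf
  have h := (Finset.mem_filter.1 hf).1
  have h2 := Fintype.mem_piFinset.1 h y
  rw [if_neg hy] at h2
  exact Finset.mem_singleton.1 h2

theorem h1_pne_nonneg {n : ℕ} {S T : Finset (Fin n → ℕ)} {ω : (Fin n → ℕ) → (Fin n → ℕ) → ℝ}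
    (h : Cpl S T ω) (y : Fin n) : 0 ≤ pne S T ω y := by
  unfold pne
  refine Finset.sum_nonneg fun f _ => Finset.sum_nonneg fun g _ => ?_
  split_ifs
  · exact le_rfl
  · exact h.nn f g

theorem h1_sum_one {n : ℕ} {S T : Finset (Fin n → ℕ)} {ω : (Fin n → ℕ) → (Fin n → ℕ) → ℝ}
    (h : Cpl S T ω) (hS : S.Nonempty) : ∑ f ∈ S, ∑ g ∈ T, ω f g = 1 := by
  rw [Finset.sum_congr rfl h.l, Finset.sum_const, nsmul_eq_mul, mul_one_div_cancel]
  have := hS.card_pos
  positivity

theorem h1_sum_left {n : ℕ} {S T : Finset (Fin n → ℕ)} {ω : (Fin n → ℕ) → (Fin n → ℕ) → ℝ}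
    (h : Cpl S T ω) (b : (Fin n → ℕ) → ℝ) :
    ∑ f ∈ S, ∑ g ∈ T, ω f g * b f = (∑ f ∈ S, b f) / (S.card : ℝ) := by
  rw [Finset.sum_div]
  refine Finset.sum_congr rfl fun f hf => ?_
  rw [← Finset.sum_mul, h.l f hf]
  ring

theorem h1_sum_right {n : ℕ} {S T : Finset (Fin n → ℕ)} {ω : (Fin n → ℕ) → (Fin n → ℕ) → ℝ}
    (h : Cpl S T ω) (b : (Fin n → ℕ) → ℝ) :
    ∑ f ∈ S, ∑ g ∈ T, ω f g * b g = (∑ g ∈ T, b g) / (T.card : ℝ) := by
  rw [Finset.sum_comm, Finset.sum_div]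
  refine Finset.sum_congr rfl fun g hg => ?_
  rw [← Finset.sum_mul, h.r g hg]
  ring

theorem h1_sum_nb {n : ℕ} {S T : Finset (Fin n → ℕ)} {ω : (Fin n → ℕ) → (Fin n → ℕ) → ℝ}
    (N : Finset (Fin n)) :
    ∑ f ∈ S, ∑ g ∈ T, ω f g * ((N.filter (fun z => f z ≠ g z)).card : ℝ) =
      ∑ z ∈ N, pne S T ω z := by
  have e1 : ∀ f g : Fin n → ℕ, ω f g * ((N.filter (fun z => f z ≠ g z)).card : ℝ) =
      ∑ z ∈ N, (if f z = g z then 0 else ω f g) := by
    intro f g
    rw [Finset.card_filter, Nat.cast_sum, Finset.mul_sum]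
    refine Finset.sum_congr rfl fun z _ => ?_
    by_cases hz : f z = g z
    · simp [hz]
    · simp [hz]
  unfold pne
  rw [Finset.sum_comm' (s := N) (t := fun _ => S) (t' := S) (s' := fun _ => N) (by tauto)]
  refine Finset.sum_congr rfl fun f _ => ?_
  rw [Finset.sum_comm' (s := N) (t := fun _ => T) (t' := T) (s' := fun _ => N) (by tauto)]
  exact Finset.sum_congr rfl fun g _ => e1 f g

theorem h1_nb_le {n : ℕ} {S T : Finset (Fin n → ℕ)} {ω : (Fin n → ℕ) → (Fin n → ℕ) → ℝ}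
    (N : Finset (Fin n)) (D0 : ℕ) (hN : N.card ≤ D0) (M : ℝ)
    (hM : ∀ z, pne S T ω z ≤ M) (hM0 : 0 ≤ M) :
    ∑ f ∈ S, ∑ g ∈ T, ω f g * ((N.filter (fun z => f z ≠ g z)).card : ℝ) ≤ D0 * M := by
  rw [h1_sum_nb N]
  calc ∑ z ∈ N, pne S T ω z ≤ ∑ _z ∈ N, M := Finset.sum_le_sum fun z _ => hM z
    _ = N.card * M := by rw [Finset.sum_const, nsmul_eq_mul]
    _ ≤ D0 * M := by
        have : (N.card : ℝ) ≤ D0 := by exact_mod_cast hN
        exact mul_le_mul_of_nonneg_right this hM0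

theorem st_H1 (h1 : ST_SWP) (h2 : ST_PTW) (h3 : ST_POS) : ST_H1 := by
  intro n D0 D k E W τ hT hBD hD hD0 hnb hτ hs1 hs2
  have hp1 := (h3 n D (k - 1) E W hT hBD (by omega)).1
  have hp2 := (h3 n D k E W hT hBD (by omega)).1
  have hS : (CC E W (k - 1)).Nonempty := Finset.card_pos.1 hp1
  have hTn : (CC E W k).Nonempty := Finset.card_pos.1 hp2
  have hk : (D : ℝ) + 1 < k := by exact_mod_cast hD
  have hkD : (0 : ℝ) < (k : ℝ) - D := by linarith
  have hβ : (2 : ℝ) * D0 ≤ (k : ℝ) - D := by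
    have h : 2 * D0 + D ≤ k := by omega
    have h' : ((2 * D0 + D : ℕ) : ℝ) ≤ k := by exact_mod_cast h
    push_cast at h'
    linarith
  obtain ⟨ω, hω, hω'⟩ := h1 n (CC E W (k - 1)) (CC E W k) W ((1 + 2 * τ) / ((k : ℝ) - D))
    (D0 / ((k : ℝ) - D)) hS hTn (by positivity) (by positivity)
    (by rw [div_le_iff₀ hkD]; linarith)
    (fun y hy f hf g hg => by rw [h1_outside hf hy, h1_outside hg hy]) (by
      intro ω hω M hM y hy
      have hM0 : 0 ≤ M := (h1_pne_nonneg hω y).trans (hM y)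
      have hb1 : ∑ f ∈ CC E W (k - 1), ∑ g ∈ CC E W k, ω f g * (bl3 E W (k - 1) f y : ℝ) ≤ τ := by
        rw [h1_sum_left hω (fun f => (bl3 E W (k - 1) f y : ℝ)),
          div_le_iff₀ (by exact_mod_cast hS.card_pos)]
        have := hs1 y hy
        unfold PP at this
        linarith
      have hb2 : ∑ f ∈ CC E W (k - 1), ∑ g ∈ CC E W k, ω f g * (bl3 E W k g y : ℝ) ≤ τ := by
        rw [h1_sum_right hω (fun g => (bl3 E W k g y : ℝ)),
          div_le_iff₀ (by exact_mod_cast hTn.card_pos)]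
        have := hs2 y hy
        unfold PP at this
        linarith
      have hb3 := h1_nb_le (nb E W y) D0 (hnb y hy) M hM hM0
      have hb4 := h1_sum_one hω hS
      have hcast : (k : ℝ) - ((k - 1 : ℕ) : ℝ) = 1 := by
        rw [Nat.cast_sub (by omega)]
        simp
      have hpt : ∀ f ∈ CC E W (k - 1), ∀ g ∈ CC E W k,
          ω f g * tv (fib (CC E W (k - 1)) f y) (fib (CC E W k) g y) ≤
          (ω f g + ω f g * (((nb E W y).filter (fun z => f z ≠ g z)).card : ℝ) +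
            ω f g * (bl3 E W (k - 1) f y : ℝ) + ω f g * (bl3 E W k g y : ℝ)) /
              ((k : ℝ) - D) := by
        intro f hf g hg
        have h := (h2 n D k E W y g hT hBD (by omega) hy hg).1 (k - 1) f (Or.inr (by omega)) hf
        rw [hcast] at h
        have h' := mul_le_mul_of_nonneg_left h (hω.nn f g)
        refine h'.trans (le_of_eq ?_)
        rw [mul_div_assoc']
        congr 1
        ring
      calc ∑ f ∈ CC E W (k - 1), ∑ g ∈ CC E W k,
            ω f g * tv (fib (CC E W (k - 1)) f y) (fib (CC E W k) g y)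
          ≤ ∑ f ∈ CC E W (k - 1), ∑ g ∈ CC E W k,
            (ω f g + ω f g * (((nb E W y).filter (fun z => f z ≠ g z)).card : ℝ) +
              ω f g * (bl3 E W (k - 1) f y : ℝ) + ω f g * (bl3 E W k g y : ℝ)) /
              ((k : ℝ) - D) :=
            Finset.sum_le_sum fun f hf => Finset.sum_le_sum fun g hg => hpt f hf g hg
        _ = (∑ f ∈ CC E W (k - 1), ∑ g ∈ CC E W k, ω f g +
              ∑ f ∈ CC E W (k - 1), ∑ g ∈ CC E W k,
                ω f g * (((nb E W y).filter (fun z => f z ≠ g z)).card : ℝ) +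
              ∑ f ∈ CC E W (k - 1), ∑ g ∈ CC E W k, ω f g * (bl3 E W (k - 1) f y : ℝ) +
              ∑ f ∈ CC E W (k - 1), ∑ g ∈ CC E W k, ω f g * (bl3 E W k g y : ℝ)) /
              ((k : ℝ) - D) := by
            simp only [← Finset.sum_add_distrib, Finset.sum_div]
        _ ≤ (1 + D0 * M + τ + τ) / ((k : ℝ) - D) := by
            apply div_le_div_of_nonneg_right _ hkD.le
            linarith
        _ = (1 + 2 * τ) / ((k : ℝ) - D) + D0 / ((k : ℝ) - D) * M := by
            field_simp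
            ring)
  exact ⟨ω, hω, hω'⟩

end Pool.Agent.Helper8.UN
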