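import Pool.Agent.Helper8.UN.Stmts

set_option autoImplicit false

open Finset

namespace Pool.Agent.Helper8.UN

theorem st_ININ : ST_ININ := by
  refine ⟨10, ?_⟩
  intro n hn m hm
  have hn' : (10 : ℝ) ≤ n := by exact_mod_cast hn
  have hL : 1 ≤ Real.log n := by
    rw [Real.le_log_iff_exp_le (by linarith)]
    have := Real.exp_one_lt_d9
    linarith
  have hL0 : 0 < Real.log n := by linarith
  have hm1 : (m : ℝ) ≤ 69 / 100 * n := by
    refine hm.trans ?_
    have : (n : ℝ) / Real.log n ≤ n := div_le_self (by linarith) hL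
    linarith
  have hm3 : (m : ℝ) + 3 ≤ n := by linarith
  have hlog : Real.log ((m : ℝ) + 3) ≤ Real.log n :=
    Real.log_le_log (by positivity) hm3
  have h1 : (m : ℝ) * Real.log ((m : ℝ) + 3) ≤ 69 / 100 * n := by
    calc (m : ℝ) * Real.log ((m : ℝ) + 3) ≤ m * Real.log n := by gcongr
      _ ≤ (69 / 100 * (n / Real.log n)) * Real.log n := by gcongr
      _ = 69 / 100 * n := by field_simp
  have h2 : 69 / 100 * (n : ℝ) ≤ n * Real.log 2 := by
    have := Real.log_two_gt_d9
    nlinarith
  have h3 : ((m : ℝ) + 3) ^ m ≤ 2 ^ n := by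
    rw [← Real.log_le_log_iff (by positivity) (by positivity), Real.log_pow, Real.log_pow]
    linarith
  exact_mod_cast h3

end Pool.Agent.Helper8.UN
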