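import Pool.Agent.Helper8.UN.Stmts

set_option autoImplicit false

open Finset

namespace Pool.Agent.Helper8.UN

theorem rat_bk_le {n k : ℕ} (E : Finset (Finset (Fin n))) (W : Finset (Fin n))
    (f : Fin n → ℕ) (y : Fin n) : bk E W k f y ≤ k := by
  classical
  unfold bk
  refine (Finset.card_filter_le _ _).trans ?_
  simp

theorem rat_sum {n k : ℕ} (E : Finset (Finset (Fin n))) (W : Finset (Fin n)) (v : Fin n)
    (S : Finset (Fin n → ℕ)) :
    ((∑ f ∈ S, (k - bk E W k f v) : ℕ) : ℝ) =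
      k * S.card - ∑ f ∈ S, (bk E W k f v : ℝ) := by
  rw [Nat.cast_sum]
  have : ∀ f ∈ S, ((k - bk E W k f v : ℕ) : ℝ) = k - bk E W k f v := fun f _ =>
    Nat.cast_sub (rat_bk_le E W f v)
  rw [Finset.sum_congr rfl this, Finset.sum_sub_distrib, Finset.sum_const, nsmul_eq_mul]
  ring

theorem st_RAT (h1 : ST_CNT) (h2 : ST_POS) : ST_RAT := by
  intro n D k E W v hT hBD hD hv
  obtain ⟨c1, c2⟩ := h1 n k E W v hT hv
  have hpos : (0 : ℝ) < PP E (W.erase v) k := by
    exact_mod_cast (h2 n D k E (W.erase v) hT hBD hD).1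
  have hhe : (∑ f ∈ CC E (W.erase v) k, (bk E W k f v : ℝ)) =
      hh E W k v * PP E (W.erase v) k := by
    unfold hh
    rw [div_mul_cancel₀ _ hpos.ne']
  refine ⟨?_, ?_, ?_, ?_⟩
  · have h : (PP E W k : ℝ) = ((∑ f ∈ CC E (W.erase v) k, (k - bk E W k f v) : ℕ) : ℝ) := by
      exact_mod_cast c1
    rw [h, rat_sum, hhe]
    unfold PP
    ring
  · unfold hh
    positivity
  · unfold hh
    rw [div_le_iff₀ hpos]
    calc (∑ f ∈ CC E (W.erase v) k, (bk E W k f v : ℝ))
        ≤ ∑ _f ∈ CC E (W.erase v) k, (D : ℝ) :=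
          Finset.sum_le_sum fun f _ => by exact_mod_cast hBD W k f v hv
      _ = D * PP E (W.erase v) k := by
          rw [Finset.sum_const, nsmul_eq_mul]
          unfold PP
          ring
  · rcases Nat.eq_zero_or_pos (AA E (W.erase v) k) with h0 | h0
    · rw [h0]
      simp
    · have h0' : (0 : ℝ) < AA E (W.erase v) k := by exact_mod_cast h0
      have hse : (∑ f ∈ SS E (W.erase v) k, (bk E W k f v : ℝ)) =
          hs E W k v * AA E (W.erase v) k := by
        unfold hs
        rw [div_mul_cancel₀ _ h0'.ne']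
      have h : ((∑ f ∈ SS E (W.erase v) k, (k - bk E W k f v) : ℕ) : ℝ) ≤ (AA E W k : ℝ) := by
        exact_mod_cast c2
      rw [rat_sum, hse] at h
      have e : ((SS E (W.erase v) k).card : ℝ) = AA E (W.erase v) k := rfl
      rw [e] at h
      linarith

end Pool.Agent.Helper8.UN
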