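import Pool.Agent.Helper8.UN.Stmts

set_option autoImplicit false

open Finset

namespace Pool.Agent.Helper8.UN

theorem sng_large : ∃ n₀ : ℕ, ∀ n ≥ n₀, 50 ≤ Real.log n ∧ (1000 : ℝ) ≤ n := by
  have h1 : Filter.Tendsto (fun n : ℕ => Real.log (n : ℝ)) Filter.atTop Filter.atTop :=
    Real.tendsto_log_atTop.comp tendsto_natCast_atTop_atTop
  obtain ⟨a, ha⟩ := (Filter.eventually_atTop.1 (h1.eventually_ge_atTop 50))
  refine ⟨max a 1000, fun n hn => ⟨ha n ((le_max_left _ _).trans hn), ?_⟩⟩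
  exact_mod_cast (le_max_right a 1000).trans hn

theorem st_SNG (h1 : ST_QSW) : ST_SNG := by
  obtain ⟨n₀, hn₀⟩ := sng_large
  refine ⟨n₀, ?_⟩
  intro n hn D0 r m E W y hR hm hW hy
  obtain ⟨hL, hn1⟩ := hn₀ n hn
  have hL0 : 0 < Real.log n := by linarith
  have hn0 : (0 : ℝ) < n := by linarith
  have hr4 : 4 ≤ r := by
    have h := hR.r0
    have h' : (4 : ℝ) ≤ r := by linarith
    exact_mod_cast h'
  have hdeg : Deg E D0 4 := by
    intro v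
    refine (Finset.card_le_card ?_).trans (hR.deg v)
    intro e he
    rw [Finset.mem_filter] at he ⊢
    exact ⟨he.1, he.2.1, lt_of_lt_of_le he.2.2 hr4⟩
  have hq := h1 n D0 m E W y hR.two hdeg hy
  set N := ((SS E W m).filter (fun f => ∀ z ∈ W, z ≠ y → f z ≠ f y)).card with hN
  have hq' : (N : ℝ) * ((W.card - (m + 2 * D0 + 2) : ℕ) : ℝ) ^ 2 ≤ 2 * (m : ℝ) ^ 2 * AA E W m := by
    exact_mod_cast hq
  have hnL : (n : ℝ) / Real.log n ≤ n / 50 := by gcongr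
  have hd0 := hR.d0
  have hx0 : 0 ≤ (n : ℝ) / Real.log n := by positivity
  have hs : ((m + 2 * D0 + 2 : ℕ) : ℝ) ≤ 5 / 100 * n := by
    push_cast
    linarith
  have hle : m + 2 * D0 + 2 ≤ W.card := by
    have : ((m + 2 * D0 + 2 : ℕ) : ℝ) ≤ W.card := by linarith
    exact_mod_cast this
  have hsub : 85 / 100 * (n : ℝ) ≤ ((W.card - (m + 2 * D0 + 2) : ℕ) : ℝ) := by
    rw [Nat.cast_sub hle]
    linarith
  have hA : (0 : ℝ) ≤ AA E W m := Nat.cast_nonneg _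
  have hm2 : (m : ℝ) ^ 2 ≤ (125 / 100 * (n / Real.log n)) ^ 2 := by gcongr
  have h2 : (N : ℝ) * (85 / 100 * (n : ℝ)) ^ 2 ≤
      2 * (125 / 100 * (n / Real.log n)) ^ 2 * AA E W m := by
    calc (N : ℝ) * (85 / 100 * (n : ℝ)) ^ 2
        ≤ (N : ℝ) * ((W.card - (m + 2 * D0 + 2) : ℕ) : ℝ) ^ 2 := by gcongr
      _ ≤ 2 * (m : ℝ) ^ 2 * AA E W m := hq'
      _ ≤ _ := by gcongr
  have h3 : (N : ℝ) * (85 / 100) ^ 2 ≤
      2 * (125 / 100) ^ 2 / Real.log n ^ 2 * AA E W m := by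
    have e1 : (N : ℝ) * (85 / 100 * (n : ℝ)) ^ 2 = ((N : ℝ) * (85 / 100) ^ 2) * (n : ℝ) ^ 2 := by
      ring
    have e2 : 2 * (125 / 100 * ((n : ℝ) / Real.log n)) ^ 2 * AA E W m =
        (2 * (125 / 100) ^ 2 / Real.log n ^ 2 * AA E W m) * (n : ℝ) ^ 2 := by
      field_simp
    rw [e1, e2] at h2
    exact le_of_mul_le_mul_right h2 (by positivity)
  have h4 : 0 ≤ (AA E W m : ℝ) / Real.log n ^ 2 := by positivity
  have e3 : 2 * (125 / 100) ^ 2 / Real.log n ^ 2 * (AA E W m : ℝ) =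
      2 * (125 / 100) ^ 2 * ((AA E W m : ℝ) / Real.log n ^ 2) := by ring
  have e4 : 5 / Real.log n ^ 2 * (AA E W m : ℝ) = 5 * ((AA E W m : ℝ) / Real.log n ^ 2) := by ring
  rw [e3] at h3
  rw [e4]
  nlinarith

end Pool.Agent.Helper8.UN
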