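import Pool.Agent.Helper8.UN.Stmts

set_option autoImplicit false

open Finset

namespace Pool.Agent.Helper8.UN

theorem st_WL0 : ST_WL0 := by
  intro p i m
  induction i with
  | zero =>
    intro _ hp
    have h0 : 0 < p m := by simpa using hp 0 le_rfl
    simp [ff, h0.ne']
  | succ i ih =>
    intro him hp
    have h1 := ih (by omega) (fun j hj => hp j (by omega))
    have hm : 0 < p m := by simpa using hp 0 (Nat.zero_le _)
    have hi : 0 < p (m - i) := hp i (by omega)
    have hfac : ((i.factorial : ℕ) : ℝ) ≠ 0 := by exact_mod_cast i.factorial_ne_zero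
    rw [eq_div_iff hfac] at h1
    have hfac' : (((i + 1).factorial : ℕ) : ℝ) ≠ 0 := by exact_mod_cast (i + 1).factorial_ne_zero
    rw [Finset.prod_range_succ, ← h1, eq_div_iff hfac']
    have hch : ((m.choose (i + 1) : ℕ) : ℝ) * ((i : ℝ) + 1) =
        (m.choose i : ℝ) * ((m - i : ℕ) : ℝ) := by
      have := Nat.choose_succ_right_eq m i
      exact_mod_cast this
    have hsub : m - (i + 1) = m - i - 1 := by omega
    unfold ff lam
    rw [Nat.factorial_succ, hsub]
    push_cast
    have e : ((m.choose (i + 1) : ℕ) : ℝ) * p (m - i - 1) / p m *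
        (((i : ℝ) + 1) * (i.factorial : ℝ)) =
        (((m.choose (i + 1) : ℕ) : ℝ) * ((i : ℝ) + 1)) * (i.factorial : ℝ) * p (m - i - 1) / p m := by
      ring
    rw [e, hch]
    field_simp

end Pool.Agent.Helper8.UN
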